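import Pool.Agent.H61.HB.Stmts

/-!
Row LON of board hbg (MP_91403e_an): Cauchy - Schwarz, weighted `ℓ¹` from `H^(σ+2)`.
-/

set_option autoImplicit false

namespace HB

theorem cs_tsum_lon {ι : Type} {a b : ι → ℝ} (ha : ∀ i, 0 ≤ a i) (hb : ∀ i, 0 ≤ b i)
    (hA : Summable fun i => a i ^ 2) (hB : Summable fun i => b i ^ 2) :
    Summable (fun i => a i * b i) ∧
      (∑' i, a i * b i) ^ 2 ≤ (∑' i, a i ^ 2) * ∑' i, b i ^ 2 := by
  have hA0 : 0 ≤ ∑' i, a i ^ 2 := tsum_nonneg fun i => sq_nonneg _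
  have hB0 : 0 ≤ ∑' i, b i ^ 2 := tsum_nonneg fun i => sq_nonneg _
  have hbd : ∀ F : Finset ι, ∑ i ∈ F, a i * b i ≤ √((∑' i, a i ^ 2) * ∑' i, b i ^ 2) := by
    intro F
    refine Real.le_sqrt_of_sq_le ?_
    refine (Finset.sum_mul_sq_le_sq_mul_sq F a b).trans ?_
    exact mul_le_mul (hA.sum_le_tsum F fun i _ => sq_nonneg _)
      (hB.sum_le_tsum F fun i _ => sq_nonneg _) (Finset.sum_nonneg fun i _ => sq_nonneg _) hA0
  have hs : Summable (fun i => a i * b i) :=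
    summable_of_sum_le (fun i => mul_nonneg (ha i) (hb i)) hbd
  refine ⟨hs, ?_⟩
  have h1 := hs.tsum_le_of_sum_le hbd
  have h0 : 0 ≤ ∑' i, a i * b i := tsum_nonneg fun i => mul_nonneg (ha i) (hb i)
  calc (∑' i, a i * b i) ^ 2 ≤ √((∑' i, a i ^ 2) * ∑' i, b i ^ 2) ^ 2 :=
        pow_le_pow_left₀ h0 h1 2
    _ = _ := Real.sq_sqrt (mul_nonneg hA0 hB0)

theorem lon_thm (hSUM : SUMStmt) : LONStmt := by
  intro σ f hf
  have hpos : ∀ k : Z2, 0 < 1 + sq k := by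
    intro k
    unfold sq
    positivity
  have hab : ∀ k : Z2, (1 + sq k)⁻¹ * ((1 + sq k) ^ ((σ + 2) / 2) * ‖f k‖) =
      (1 + sq k) ^ (σ / 2) * ‖f k‖ := by
    intro k
    rw [← mul_assoc, ← Real.rpow_neg_one, ← Real.rpow_add (hpos k)]
    congr 2
    ring
  have ha2 : ∀ k : Z2, ((1 + sq k)⁻¹) ^ 2 = ((1 + sq k) ^ 2)⁻¹ := fun k => inv_pow _ _
  have hb2 : ∀ k : Z2, ((1 + sq k) ^ ((σ + 2) / 2) * ‖f k‖) ^ 2 =
      (1 + sq k) ^ (σ + 2) * ‖f k‖ ^ 2 := by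
    intro k
    rw [mul_pow, ← Real.rpow_natCast ((1 + sq k) ^ ((σ + 2) / 2)) 2, ← Real.rpow_mul (hpos k).le]
    congr 2
    push_cast
    ring
  have h := cs_tsum_lon (a := fun k : Z2 => (1 + sq k)⁻¹)
    (b := fun k : Z2 => (1 + sq k) ^ ((σ + 2) / 2) * ‖f k‖)
    (fun k => (inv_pos.2 (hpos k)).le)
    (fun k => mul_nonneg (Real.rpow_nonneg (hpos k).le _) (norm_nonneg _))
    (by simp only [ha2]; exact hSUM) (by simp only [hb2]; exact hf)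
  simp only [hab, ha2, hb2] at h
  exact h

end HB
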